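import Mathlib
import Pool.Agent.Y221.PD.Top

/-!
# The five conditions of the Green-Griffiths-Lang conjecture for varieties dominated by systems of
high powers

Let `{F = 0}` be a projective variety which is given by finitely many sums of at most `s` powers of
linear forms, with exponents at least `N`, or by finitely many forms with at most `s` monomials and
exponents divisible by numbers at least `N`; for instance, all Fermat covers
`{(z_0 ^ N : ... : z_n ^ N) ∈ Y}` of a projective variety `Y` are of the second kind. Let
`N ≥ 4 * 10 ^ s * (r + 1) ^ 7 * w`.

The function-field language of the starting repository is used (`Pool/Agent/W602/GT`): `SubVar`,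
`IsComponent`: `K` is the function field, and `y` the generic point, of a closed subvariety, or
irreducible component, of dimension `w`; `GeneralType L`: the varieties with function field `L` are
of general type; `Ruled K`: `V` is birational to `B × ℙ¹` for some `B`; `IsUniruled L`: `X` is
uniruled (`Pool/Agent/W619/PQ/Defs.lean`); `RatCurve F y` (`Pool/Agent/TH466/QG/Sub.lean`): a
nonconstant polynomial curve `P` over `K` with `P(1) = y` and `F(P) = 0`. `x` is the generic point
of `X` in homogeneous coordinates; `StronglyGeneral` (`Pool/Agent/TH466/QG/Strong.lean`): off a
proper closed subset of `X`, all closed subvarieties of positive dimension are of general type;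
`EntireCurve`, `PseudoBrody` (`Pool/Agent/Y221/BD/Defs.lean`): off a proper closed subset of `X`
there are no entire curves; `EssentialDisc`, `PseudoPicard`; `MeroMap`, `PseudoAbelian`;
`TorusCurve`, `PseudoTorus` (`Pool/Agent/Y221/PD/Defs.lean`): the same for the holomorphic maps from
the punctured disc with an essential singularity, for the nonconstant meromorphic maps from the
spaces `ℂ ^ g`, and for the nonconstant morphisms from the multiplicative group. The nonconstant
rational maps from semi-abelian varieties to `X` include the last ones, and they lift to
meromorphic maps from `ℂ ^ g` by the universal covering.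
-/

set_option autoImplicit false

namespace Pool.Agent.Results.MP_160ed4_ag.DominatedFive

open Pool.Agent.W602.GT
open Pool.Agent.W619.PQ (IsUniruled)
open Pool.Agent.TH466.QG (StronglyGeneral RatCurve)
open Pool.Agent.Y221.BD (PseudoBrody)
open Pool.Agent.Y221.PD (PseudoPicard PseudoAbelian PseudoTorus)

/-- Let `V` be a closed subvariety of `{F = 0}` of dimension `w ≥ 1`.

(1) Suppose that `V` is not covered by rational curves of `{F = 0}`, in the sense that there is none
through the generic point of `V`, over the function field of `V`, or that `V` is an irreducible
component of `{F = 0}` and not birational to `B × ℙ¹` for any `B`. Then every projective variety `X`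
with generically finite dominant rational maps `X' ⇢ V`, of any degree, and `X' ⇢ X`, of degree at
most `r`, is of general type, and proper closed subsets of `X` contain all closed subvarieties of
positive dimension which are not of general type, all punctured discs with an essential singularity,
all entire curves, all nonconstant meromorphic images of the spaces `ℂ ^ g` and all nonconstant
images of the multiplicative group.

(2) If `V` is an irreducible component of `{F = 0}` then, for every projective variety `X` with a
generically finite dominant rational map `V ⇢ X` of degree at most `r`, these conditions are all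
equivalent, and they are equivalent to `X` not being uniruled. -/
theorem result {n : ℕ} {ι : Type} [Finite ι] {F : ι → MvPolynomial (Fin (n + 1)) ℂ}
    {s r w N : ℕ} (hF : HighPowers s N F) (hw : 1 ≤ w)
    (hN : w * (4 * 10 ^ s * (r + 1) ^ 7) ≤ N) {K : Type} [Field K] [Algebra ℂ K]
    {y : Fin (n + 1) → K} (hy : SubVar F K w y) :
    ((¬ RatCurve F y ∨ IsComponent F y ∧ ¬ Ruled ℂ K) →
      ∀ (K' L : Type) [Field K'] [Field L] [Algebra ℂ K'] [Algebra ℂ L]
        [Algebra K K'] [Algebra L K'] [IsScalarTower ℂ K K'] [IsScalarTower ℂ L K']
        [FiniteDimensional K K'] [FiniteDimensional L K'], Module.finrank L K' ≤ r →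
        ∀ (M : ℕ) (x : Fin (M + 1) → L), x ≠ 0 → coords ℂ x = ⊤ →
          GeneralType ℂ L w ∧ StronglyGeneral ℂ x ∧ PseudoPicard x ∧ PseudoBrody x ∧
            PseudoAbelian x ∧ PseudoTorus x) ∧
    (IsComponent F y → ∀ (L : Type) [Field L] [Algebra ℂ L] [Algebra L K] [IsScalarTower ℂ L K]
        [FiniteDimensional L K], Module.finrank L K ≤ r →
        ∀ (M : ℕ) (x : Fin (M + 1) → L), x ≠ 0 → coords ℂ x = ⊤ →
          [GeneralType ℂ L w, StronglyGeneral ℂ x, PseudoPicard x, PseudoBrody x,
            PseudoAbelian x, PseudoTorus x, ¬ IsUniruled ℂ L w].TFAE) := by
  refine ⟨?_, ?_⟩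
  · intro h K' L _ _ _ _ _ _ _ _ _ _ hr M x hx hgen
    exact Pool.Agent.Y221.PD.five_dominated (K' := K') hF hw hN hy h hr hx hgen
  · intro hcomp L _ _ _ _ _ hr M x hx hgen
    exact Pool.Agent.Y221.PD.five_iff hF hw hN hy hcomp hr hx hgen

end Pool.Agent.Results.MP_160ed4_ag.DominatedFive
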