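import Pool.Agent.Y174.BR.U5

/-!
MP_160ed4_ag, Q1: projective varieties `X` such that `S^m Ω_X` is generated by global sections for some
`m ≥ 1`.
-/

set_option autoImplicit false

open AlgebraicGeometry CategoryTheory FF Pool.Agent.W619.PQ Pool.Agent.W619.TW Pool.Agent.W619.Y
  Pool.Agent.Y174

namespace Pool.Agent.Results.MP_160ed4_ag.GeneratedSymmetricPowers

/-- Let `X` be a proper scheme over the algebraically closed field `k` of characteristic zero, for
instance a smooth complex projective variety, such that `S^m Ω_X` is generated by its global sections for
some `m ≥ 1`. Let `V` be a closed subvariety of `X` of dimension `n`, with function field `K` and generic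
point `y`.

(a) The Kodaira dimension of `V` is at least `0`.

(b) Let `V → W` be a fibration with `dim W < n`, for instance the Iitaka fibration if `V` is not of
general type, and `F` the function field of the geometric generic fibre. If `κ (F) ≤ 0`, then `F` has a
finite Galois cover of maximal Albanese dimension and of Kodaira dimension `0`; so it is birational to
an abelian variety (Kawamata) (`FibreCovers`).

(c) Let `M` be a field which contains `K`, for instance the field of meromorphic functions on `ℂ` if `V` is
the Zariski closure of an entire curve, with a derivation `D`, for instance `d/dz`, which is not zero on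
`K`, and `C` a subfield, mapped to itself by `D`, which contains the values of the symmetric differentials
of degree `m` on the tangent vector `D`; for instance `C = k` if `V` is the closure of a Brody curve, and
`C` the field of the small functions for all entire curves. Then `D` is a regular derivation of a normal
variety `Y'` over `C` which is finite over the closure of the curve in `X × Spec C`, and `Y'` has maximal
Albanese dimension (`RegModel`).

(d) Suppose that the points `p i` of `V`, for instance the generic points of the images of abelian
varieties, are dense in `V` and that the symmetric differentials of degree `m` are constant on the nonzero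
tangent vectors `D i` at these points (`DenseTan`). Then there are a field `M` and a derivation as in (c)
which is zero on `C`: there is a normal variety `Y'` over `C`, finite over a closed subvariety of
`X × Spec C` which dominates `V`, of maximal Albanese dimension and with a nonzero regular vector
field (`VectorFieldModel`). -/
theorem result {k : Type} [Field k] [IsAlgClosed k] [CharZero k] {X : Scheme.{0}}
    (f : X ⟶ Spec (.of k)) [IsProper f] {m : ℕ} (hm : 1 ≤ m) (hX : BR.GenSym f m)
    -- the subvariety `V`
    {K : Type} [Field K] [Algebra k K] [Algebra.EssFiniteType k K] {n : ℕ}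
    (hn : Algebra.trdeg k K = n) (y : HY.Pt f K) [Mono y.1] :
    KodTr k K n 0 ∧
    BR.FibreCovers k K n ∧
    (∀ (C M : Type) [Field C] [Algebra k C] [Field M] [Algebra k M] [Algebra K M]
      [IsScalarTower k K M] [Algebra C M] [IsScalarTower k C M] (D : Derivation k M M),
      (∀ c : C, ∃ c' : C, D (algebraMap C M c) = algebraMap C M c') →
      (∀ s : HY.SymDiff f m, ∃ c : C, s.val M ((BR.ext y M).tan D) = algebraMap C M c) →
      (∃ b : K, D (algebraMap K M b) ≠ 0) → BR.RegModel y m D C) ∧
    ∀ (Ω ι : Type) [Field Ω] [Algebra k Ω] (p : ι → HY.Pt f Ω) (D : ι → Derivation k Ω Ω),
      BR.DenseTan y m p D → BR.VectorFieldModel y m :=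
  ⟨HY.kod_nonneg (BR.noCommonZeros_of_gen hm hX) ‹Algebra.EssFiniteType k K› hn y
    fun _ h => h, fun _ _ _ => by
    intros
    exact HY.main_proper (BR.noCommonZeros_of_gen hm hX) ‹Algebra.EssFiniteType k K› hn y
      (fun _ h => h) ‹_› ‹_› ‹_› ‹_›, fun _ _ => by
    intro _ _ _ _ _ _ _ _ D h1 h2 h3
    exact BR.mainC hm hX ‹Algebra.EssFiniteType k K› y D h1 h2 h3, fun _ _ => by
    intro _ _ p D hp
    exact BR.ultra_reg hm hX ‹Algebra.EssFiniteType k K› y p D hp⟩

end Pool.Agent.Results.MP_160ed4_ag.GeneratedSymmetricPowers
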