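import Pool.Agent.Y199.NG.Dich

/-!
MP_160ed4_ag, Q1: the conditions (2)-(5) of the generalised Green-Griffiths-Lang conjecture imply (1)
for the complements of hypersurfaces in complete intersections which are nondegenerate with respect
to their Newton polytopes.
-/

set_option autoImplicit false

namespace Pool.Agent.Results.MP_160ed4_ag.NondegenerateFiveConditions

open Pool.Agent.Y199.NN Pool.Agent.Y199.NG MvPolynomial
open Pool.Agent.H159R3.Exp (Laur)
open Pool.Agent.W602.GT (LogGeneralType)

/-- The hypothesis `NotExceptional` holds if all `F_j` have degree at least two in each variable, in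
particular if there are no `F_j`. -/
theorem notExceptional_of_degree {n : ℕ} {ι κ : Type} [Fintype ι] [Fintype κ]
    {F : ι → MvPolynomial (Fin n) ℂ} {G : κ → MvPolynomial (Fin n) ℂ}
    (h : ∀ j i, ∃ α ∈ (F j).support, 2 ≤ α i) : NotExceptional F G := by
  classical
  rintro w ⟨i0, hi0⟩ -
  obtain ⟨i, -, hi⟩ := Finset.exists_max_image Finset.univ w ⟨i0, Finset.mem_univ i0⟩
  have h1 : 1 ≤ w i := le_trans (Nat.pos_of_ne_zero hi0) (hi i0 (Finset.mem_univ i0))
  refine ⟨w i, h1, ?_⟩
  have h2 : (Finset.univ.filter fun j => weightedTotalDegree w (F j) = w i) = ∅ := by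
    rw [Finset.filter_eq_empty_iff]
    intro j _ hj
    obtain ⟨α, hα, hα2⟩ := h j i
    have h3 := wdeg_ge w (F j) hα
    have h4 : w i * α i ≤ ∑ i, w i * α i :=
      Finset.single_le_sum (f := fun i => w i * α i) (fun _ _ => Nat.zero_le _)
        (Finset.mem_univ i)
    have h5 : w i * 2 ≤ w i * α i := Nat.mul_le_mul_left _ hα2
    omega
  rw [h2, Finset.card_empty]
  exact Finset.card_ne_zero_of_mem (Finset.mem_filter.2 ⟨Finset.mem_univ i, rfl⟩)

/-- Let `X` be an irreducible component, of dimension `m = n - #ι` and not contained in a coordinate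
hyperplane, of the locally closed set `F_j = 0` (`j` in `ι`), `G_l ≠ 0` (`l` in `κ`) in the affine
space of dimension `n`, where the `G_l` define a divisor with normal crossings on the smooth complete
intersection `F_j = 0`, and where `F`, `G` are nondegenerate at infinity and not exceptional. `K` is
the function field of `X` and `x` its generic point.

Then `X` is of logarithmic general type, or each of the following sets is Zariski dense in `X`:

* the union of the closed subvarieties of positive dimension not of logarithmic general type;
* the union of the images of the holomorphic maps from the punctured disc with an essential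
  singularity;
* the union of the images of the nonconstant holomorphic maps from the complex line;
* the union of the images of the nonconstant morphisms from the multiplicative group.

So each of the conditions (2)-(5) implies (1) for `X`. More precisely, if `X` is not of logarithmic
general type, then there is a nonconstant morphism from the multiplicative group to `X` through every
point of `X` outside a hypersurface. -/
theorem result {n m : ℕ} {ι κ : Type} [Fintype ι] [Fintype κ] {K : Type} [Field K] [Algebra ℂ K]
    {F : ι → MvPolynomial (Fin n) ℂ} {G : κ → MvPolynomial (Fin n) ℂ} {x : Fin n → K}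
    (hgen : IntermediateField.adjoin ℂ (Set.range x) = ⊤) (htr : Algebra.trdeg ℂ K = m)
    (hm : m + Fintype.card ι = n) (hx : ∀ i, x i ≠ 0) (hF : ∀ j, aeval x (F j) = 0)
    (hG : ∀ l, aeval x (G l) ≠ 0) (hnc : ∀ a : Fin n → ℂ, NormalCrossingsAt F G a)
    (hnd : NondegenerateAtInfinity F G) (hex : NotExceptional F G) :
    LogGeneralType ℂ K m (Boundary G x) ∨
    ((Zcl (Pts G x) (NonGeneralPoints G x) = Pts G x ∧
      Zcl (Pts G x) (PuncturedPoints (Pts G x)) = Pts G x ∧
      Zcl (Pts G x) (EntirePoints (Pts G x)) = Pts G x ∧
      Zcl (Pts G x) (TorusPoints (Pts G x)) = Pts G x) ∧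
    ∃ h : MvPolynomial (Fin n) ℂ, aeval x h ≠ 0 ∧ ∀ a ∈ Pts G x, eval a h ≠ 0 →
      ∃ v : ℂ → Fin n → ℂ, (∀ i, Laur fun t => v t i) ∧ (∀ t, t ≠ 0 → v t ∈ Pts G x) ∧
        v 1 = a ∧ ∃ t, t ≠ 0 ∧ v t ≠ v 1) := by
  rcases special hgen htr hm hx hF hG hnc hnd hex with h | h
  · exact Or.inl h
  · rcases dichotomy hgen htr hm hx hF hG hnc hnd hex with h' | h'
    · exact Or.inl h'
    · exact Or.inr ⟨h, h'⟩

end Pool.Agent.Results.MP_160ed4_ag.NondegenerateFiveConditions
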