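import Pool.Agent.Y190.QP.PicU

/-!
MP_160ed4_ag, Q1: the five conditions of the generalized Green-Griffiths-Lang conjecture for all the
closed subvarieties of the varieties of the vectors whose `m`-th powers, for instance whose squares,
are the values of a polynomial of low degree at given constants, and for all the closed subvarieties
of the complements of coordinate hyperplanes in them.

`PowVal a n m` is the (cone over the) smooth complete intersection `X` of dimension `n` in `P^N` of
the vectors `x` for which there is a polynomial `H` of degree at most `n` with `x i ^ m = H (a i)`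
for all `i`. `Pts U F` is the cone over the quasi-projective variety
`V = {F = 0, x_j ≠ 0 for all j in U}`; `SubVarU U F K w y` means that `K` is the function field, and
`y` the generic point, of a closed subvariety of dimension `w` of it, and `OffU U y` are the places
of `K` whose centre is not on `V`.
-/

set_option autoImplicit false

namespace Pool.Agent.Results.MP_160ed4_ag.OpenPolynomialValueFive

open Pool.Agent.W602.GT Pool.Agent.Y190.BV Pool.Agent.Y190.AN Pool.Agent.Y190.QP
  Pool.Agent.H159R3.GGLLog Pool.Agent.W603.BP

/-- Let `a 0, ..., a N` be distinct complex numbers, `m ≥ 2`, `n < 2 m` and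
`4 n + (n + 1) ^ 2 < 2 (N + 1)`. Let `V` be a closed subset of the complement of the hyperplanes
`x_j = 0`, `j` in `U`, in the variety of the vectors whose `m`-th powers are the values of a
polynomial of degree at most `n` at the `a i`.

The special sets of `V`, the Zariski closures of the unions of the closed subvarieties of positive
dimension which are not of log general type, of the images of the punctured disc under holomorphic
maps with an essential singularity, of the entire curves, of the images of the meromorphic maps from
the spaces `ℂ ^ g` which are holomorphic maps to `V` outside a set of codimension at least two, and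
of the images of the multiplicative group, all coincide with the closure `SpL` of the union of the
lines which meet the complement of `V` in at most two points; there are none of them if `U` has
three elements. If `V` is irreducible of positive dimension, then `V` is of log general type if and
only if this set is not `V`, and if and only if `U` has three elements or `V` is not ruled. -/
theorem result {N n m : ℕ} (hm : 2 ≤ m) (hnm : n < 2 * m)
    (hN : 4 * n + (n + 1) ^ 2 < 2 * (N + 1)) (a : Fin (N + 1) → ℂ) (ha : Function.Injective a)
    (U : Set (Fin (N + 1))) {ι : Type} (F : ι → MvPolynomial (Fin (N + 1)) ℂ)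
    (hF : ∀ e, IsForm (F e)) (hV : Pts U F ⊆ PowVal a n m) :
    (SpAlgU U F = SpL U F ∧ SpP U F = SpL U F ∧ SpH U F = SpL U F ∧ SpCg U F = SpL U F ∧
      SpT U F = SpL U F) ∧ (3 ≤ U.ncard → SpL U F = ∅) ∧
    ∀ (K : Type) [Field K] [Algebra ℂ K] (w : ℕ) (y : Fin (N + 1) → K), 1 ≤ w →
      SubVarU U F K w y → (∀ G : MvPolynomial (Fin (N + 1)) ℂ, IsForm G →
        (val y G = 0 ↔ ∀ x ∈ Pts U F, val x G = 0)) →
      [LogGeneralType ℂ K w (OffU U y), SpAlgU U F ≠ Pts U F, SpP U F ≠ Pts U F,
        SpH U F ≠ Pts U F, SpCg U F ≠ Pts U F, SpT U F ≠ Pts U F, SpL U F ≠ Pts U F,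
        3 ≤ U.ncard ∨ ¬ Ruled ℂ K].TFAE := by
  have hn : n ≤ N := by nlinarith
  have hsub : ConeU U F ⊆ Cone (buchi a n m) := by
    rw [cone_buchi ha hn, Pool.Agent.Y190.QP.coneU_eq]
    exact hV
  obtain ⟨h1, h2, h3, h4, h5⟩ := special_six hm hnm hN ha hF hsub
  refine ⟨⟨h1, h2, h3, h4, h5⟩, fun hU => ?_, fun K _ _ w y hw hy hgen => ?_⟩
  · rw [← h1]
    exact spAlgU_empty hm hnm hN ha hsub hU
  · rw [← Pool.Agent.Y190.QP.coneU_eq] at hgen ⊢
    have h6 := lang_equivU hm hnm hN ha hF hsub hw hy hgen
    tfae_have 1 ↔ 2 := h6.out 0 1
    tfae_have 1 ↔ 7 := h6.out 0 2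
    tfae_have 1 ↔ 8 := h6.out 0 3
    tfae_have 3 ↔ 7 := by rw [h2]
    tfae_have 4 ↔ 7 := by rw [h3]
    tfae_have 5 ↔ 7 := by rw [h4]
    tfae_have 6 ↔ 7 := by rw [h5]
    tfae_finish

end Pool.Agent.Results.MP_160ed4_ag.OpenPolynomialValueFive
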